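import Pool.Agent.Q96.ID.Stm

/-!
# Project ID (helper96), job NIQ: the quotient is not injective
-/

set_option autoImplicit false

open Cardinal Set Filter Topology

namespace Q285.ID.NIQ

open Q96.ID

open scoped Classical in
/-- characteristic functions -/
theorem exists_chi (𝕜 : Type) [RCLike 𝕜] (Γ : Type) (S : Set Γ) :
    ∃ h : Linf 𝕜 Γ, (∀ γ ∈ S, h γ = 1) ∧ (∀ γ, γ ∉ S → h γ = 0) := by
  have hb : Memℓp (fun γ : Γ => if γ ∈ S then (1 : 𝕜) else 0) ⊤ := by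
    apply memℓp_infty
    refine ⟨1, ?_⟩
    rintro _ ⟨γ, rfl⟩
    dsimp only
    split_ifs
    · rw [norm_one]
    · rw [norm_zero]; exact zero_le_one
  refine ⟨⟨_, hb⟩, fun γ hγ => ?_, fun γ hγ => ?_⟩
  · exact if_pos hγ
  · exact if_neg hγ

theorem niq (h1 : S_CZ) (h2 : S_ROS) (h3 : S_ULIM) (h4 : S_ULTRA) (h5 : S_SAME) : S_NIQ := by
  intro 𝕜 _ κ hκ Γ T C hT hC hCC hcard Q _ _ _ π hπ hQ
  obtain ⟨v, hv⟩ := h1 𝕜 κ hκ Γ T C hCC Q π hπ hQ
  -- ultrafilters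
  have hp : ∀ t : T, ∃ p : Ultrafilter Γ, C t ∈ p ∧ ∀ N : Set Γ, #N < κ → Nᶜ ∈ p := by
    intro t
    obtain ⟨p, hp1, -, hp2⟩ := h4.2 κ hκ Γ Empty (C t) (fun e => e.elim) (by
      intro F
      refine (hC t).trans ?_
      refine mk_le_mk_of_subset ?_
      intro x hx
      exact ⟨hx, fun γ _ => γ.elim⟩)
    exact ⟨p, hp1, hp2⟩
  choose p hp1 hp2 using hp
  choose L hL hL2 using fun t : T => h3 𝕜 Γ (p t)
  -- the limits vanish on `A`
  have hLA : ∀ t (f : Linf 𝕜 Γ), f ∈ A 𝕜 κ hκ Γ → L t f = 0 := by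
    intro t f hf
    have hle : ∀ ε : ℝ, 0 < ε → ‖L t f‖ ≤ ε := by
      intro ε hε
      have h6 := hp2 t {γ | ε < ‖f γ‖} (hf ε hε)
      refine le_of_tendsto (hL t f).norm ?_
      refine Filter.mem_of_superset (show {γ | ε < ‖f γ‖}ᶜ ∈ (p t : Filter Γ) from h6) ?_
      intro γ hγ
      have hγ2 : ¬ (ε < ‖f γ‖) := hγ
      exact not_lt.1 hγ2
    have h7 : ‖L t f‖ ≤ 0 := le_of_forall_pos_le_add (fun ε hε => by
      rw [zero_add]; exact hle ε hε)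
    exact norm_le_zero_iff.1 h7
  obtain ⟨c, hc, hc2⟩ := ContinuousLinearMap.exists_preimage_norm_le π hπ.surj
  have hφ : ∀ t : T, ∃ φ : Q →L[𝕜] 𝕜, (∀ x, φ (π x) = L t x) ∧ ∀ y, ‖φ y‖ ≤ c * ‖y‖ := by
    intro t
    obtain ⟨φ, hφ⟩ := (h5 𝕜 (Linf 𝕜 Γ) Q 𝕜).1 π (L t) hπ.surj (by
      intro x hx
      obtain ⟨a, ha⟩ := (hπ.ker x).1 hx
      rw [← ha]
      exact hLA t _ a.2)
    refine ⟨φ, hφ, fun y => ?_⟩
    obtain ⟨x, hx, hx2⟩ := hc2 y
    rw [← hx, hφ x]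
    rw [hx]
    exact (hL2 t x).trans hx2
  choose φ hφ1 hφ2 using hφ
  have hψ : ∀ (t : T) (f : Linf 𝕜 T), ‖(φ t).comp v f‖ ≤ c * ‖v‖ * ‖f‖ := by
    intro t f
    refine (hφ2 t (v f)).trans ?_
    rw [mul_assoc]
    exact mul_le_mul_of_nonneg_left (v.le_opNorm f) hc.le
  have hψ1 : ∀ (t : T) (a : Linf 𝕜 T), a t = 1 → (∀ s, s ≠ t → a s = 0) → φ t (v a) = 1 := by
    intro t a ha ha2
    obtain ⟨h, hh1, hh2⟩ := exists_chi 𝕜 Γ (C t)
    rw [hv t a h ha ha2 hh1 hh2, hφ1 t h]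
    have h8 : Tendsto (fun x => h x) (p t : Filter Γ) (𝓝 (1 : 𝕜)) := by
      refine tendsto_const_nhds.congr' ?_
      refine Filter.mem_of_superset (show C t ∈ (p t : Filter Γ) from hp1 t) ?_
      intro γ hγ
      exact (hh1 γ hγ).symm
    exact tendsto_nhds_unique (hL t h) h8
  obtain ⟨T', hT', hT2⟩ := h2 𝕜 T (fun t => (φ t).comp v) (c * ‖v‖) hψ (1 / 2) (by norm_num)
  choose χ hχ1 hχ0 using fun S : Set T => exists_chi 𝕜 T S
  -- the key inequality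
  have hkey : ∀ (S S' : Set T), S ⊆ T' → S' ⊆ T' → ∀ t, t ∈ S → t ∉ S' → v (χ S) ≠ v (χ S') := by
    intro S S' hS hS' t ht ht' heq
    have ha1 : χ {t} t = 1 := hχ1 {t} t rfl
    have ha2 : ∀ s, s ≠ t → χ {t} s = 0 := fun s hs => hχ0 {t} s hs
    have h9 := hψ1 t (χ {t}) ha1 ha2
    have h10 : ∀ s, (χ S - χ S' - χ {t} : Linf 𝕜 T) s = χ S s - χ S' s - χ {t} s := fun s => rfl
    have h11 : ‖(φ t).comp v (χ S - χ S' - χ {t})‖ ≤ 1 / 2 * ‖χ S - χ S' - χ {t}‖ := by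
      refine hT2 t (hS ht) _ ?_
      rintro s (hs | rfl)
      · rw [h10, hχ0 S s (fun h => hs (hS h)), hχ0 S' s (fun h => hs (hS' h)),
          ha2 s (fun h => hs (h ▸ hS ht))]
        simp
      · rw [h10, hχ1 S s ht, hχ0 S' s ht', ha1]
        simp
    have h12 : ‖χ S - χ S' - χ {t}‖ ≤ 1 := by
      refine lp.norm_le_of_forall_le zero_le_one ?_
      intro s
      rw [h10]
      by_cases hst : s = t
      · subst hst
        rw [hχ1 S s ht, hχ0 S' s ht', ha1]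
        simp
      · rw [ha2 s hst, sub_zero]
        by_cases hs1 : s ∈ S <;> by_cases hs2 : s ∈ S'
        · rw [hχ1 S s hs1, hχ1 S' s hs2]; simp
        · rw [hχ1 S s hs1, hχ0 S' s hs2]; simp
        · rw [hχ0 S s hs1, hχ1 S' s hs2]; simp
        · rw [hχ0 S s hs1, hχ0 S' s hs2]; simp
    have h13 : (φ t).comp v (χ S - χ S' - χ {t}) = -1 := by
      have h14 : v (χ S - χ S' - χ {t}) = -v (χ {t}) := by
        rw [map_sub v (χ S - χ S') (χ {t}), map_sub v (χ S) (χ S'), heq, sub_self, zero_sub]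
      rw [ContinuousLinearMap.comp_apply, h14, map_neg, h9]
    rw [h13, norm_neg, norm_one] at h11
    linarith
  have hinj : Function.Injective (fun S : Set T' => v (χ (Subtype.val '' S))) := by
    intro S S' hSS
    by_contra hne
    have hsub : ∀ R : Set T', Subtype.val '' R ⊆ T' := by
      rintro R _ ⟨x, -, rfl⟩
      exact x.2
    have h14 : ∃ t, (t ∈ S ∧ t ∉ S') ∨ (t ∈ S' ∧ t ∉ S) := by
      by_contra hcon
      apply hne
      ext t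
      have h15 := not_exists.1 hcon t
      tauto
    obtain ⟨t, ⟨ht, ht'⟩ | ⟨ht, ht'⟩⟩ := h14
    · refine hkey _ _ (hsub S) (hsub S') t.1 ⟨t, ht, rfl⟩ ?_ hSS
      rintro ⟨x, hx, hxt⟩
      rw [Subtype.ext hxt] at hx
      exact ht' hx
    · refine hkey _ _ (hsub S') (hsub S) t.1 ⟨t, ht, rfl⟩ ?_ hSS.symm
      rintro ⟨x, hx, hxt⟩
      rw [Subtype.ext hxt] at hx
      exact ht' hx
  have hc1 : #(Set T') ≤ #Q := mk_le_of_injective hinj
  have hc3 : #Q ≤ #(Linf 𝕜 Γ) := mk_le_of_surjective hπ.surj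
  rw [mk_set, hT'] at hc1
  exact absurd hcard (not_lt.2 (hc1.trans hc3))

theorem t_NIQ (h1 : S_CZ) (h2 : S_ROS) (h3 : S_ULIM) (h4 : S_ULTRA) (h5 : S_SAME) : S_NIQ :=
  niq h1 h2 h3 h4 h5

end Q285.ID.NIQ
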